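import Pool.Agent.TMX.Stmts2

set_option autoImplicit false

/-!
# Squad TMX, row ENDG
-/

namespace Pool.Agent.TMX.H12

open Finset
open Pool.Agent.Helper51_Max (I IsMax card_I_pos)

theorem exists_ge {N x r : ℕ} {g M : ℕ → ℝ} (hx : x ≤ N)
    (hr : M x * ((I N x r).card : ℝ) = ∑ i ∈ I N x r, g i) : ∃ i ∈ I N x r, M x ≤ g i := by
  have hne : (I N x r).Nonempty := Finset.card_pos.1 (card_I_pos r hx)
  refine Finset.exists_le_of_sum_le hne ?_
  rw [Finset.sum_const, nsmul_eq_mul, mul_comm]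
  exact hr.le

theorem endG : EndG := by
  intro tan N g M hM
  constructor
  · intro x y hxy hy hlt
    obtain ⟨r, hr⟩ := hM.attained x (by omega)
    by_cases h : y ≤ x + r
    · obtain ⟨i, _, h1, h2⟩ := (tan N g M hM).1 x y r (by omega) hy h hr hlt
      exact ⟨i, by omega, h2.le⟩
    · obtain ⟨i, hi, h2⟩ := exists_ge (by omega) hr
      unfold I at hi
      rw [Finset.mem_Icc] at hi
      have h3 : i ≤ x + r := le_trans hi.2 (min_le_left _ _)
      exact ⟨i, by omega, h2⟩
  · intro x y hxy hx hlt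
    obtain ⟨r, hr⟩ := hM.attained x hx
    by_cases h : x ≤ y + r
    · obtain ⟨i, hi, h1, h2⟩ := (tan N g M hM).2 x y r (by omega) hx h hr hlt
      unfold I at hi
      rw [Finset.mem_Icc] at hi
      have h3 : i ≤ N := le_trans hi.2 (min_le_right _ _)
      exact ⟨i, by omega, h3, h2.le⟩
    · obtain ⟨i, hi, h2⟩ := exists_ge hx hr
      unfold I at hi
      rw [Finset.mem_Icc] at hi
      have h3 : i ≤ N := le_trans hi.2 (min_le_right _ _)
      have h4 := hi.1
      exact ⟨i, by omega, h3, h2⟩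

end Pool.Agent.TMX.H12
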