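import Pool.Agent.TMX.Stmts4
import Pool.Agent.Helper65_TMX.Refl

set_option autoImplicit false

/-!
# Squad TMX: row GEOR
-/

namespace Pool.Agent.TMX.H12

open Finset
open Pool.Agent.Helper51_Max (I IsMax)
open Pool.Agent.TMX

/-- ROW GEOR -/
theorem geoR : GeoR := by
  intro N g M y z z' r h
  have h1 := h.yz
  have h2 := h.zz
  have h3 := h.rz
  have h4 := h.rN
  have h5 := h.hy
  have h6 := h.hz
  have h7 := h.hC
  have e1 : N - (N - z) = z := by omega
  have e2 : N - (N - z') = z' := by omega
  have e3 : N - (N - y) = y := by omega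
  refine ⟨by omega, by omega, by omega, by omega, by omega, by omega, by omega, ?_, ?_, ?_⟩
  · rw [H65.sum_refl N g (N - z) r (Nat.sub_le N z), e1, H65.card_refl N z r (by omega)]
    exact h.opt
  · show M (N - (N - z')) < M (N - (N - z))
    rw [e1, e2]
    exact h.Mz
  · show M (N - (N - y)) < M (N - (N - z))
    rw [e1, e3]
    exact h.My

end Pool.Agent.TMX.H12
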